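import Pool.Agent.N482.CHDefs
import Pool.Agent.H774R4.Fin

set_option autoImplicit false

open Set Topology Cardinal

namespace Pool.Agent.Results.MP_181197_gt.ConsistentCounterexample

open Pool.Agent.Helper639.ForceCH (OmegaOnePreserved CHHolds)
open Pool.Agent.N482 (CH)

/-- Every closed set is `G_δ` and the space is normal. -/
def PerfectlyNormal (Z : Type) [TopologicalSpace Z] : Prop :=
  NormalSpace Z ∧ ∀ s : Set Z, IsClosed s → IsGδ s

/-- (1) Some forcing notion preserves `ω₁` and forces the continuum hypothesis. (2) The continuum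
hypothesis implies that there is a Tychonoff space `X` such that `C_p(X)` is hereditarily Lindelöf
and perfectly normal, while `C_p(X) × C_p(X)` is not perfectly normal and has an uncountable
discrete subspace. -/
theorem result :
    (∃ (P : Type) (_ : Preorder P), Nonempty P ∧
      ∀ p : P, p ∈ OmegaOnePreserved P ∧ p ∈ CHHolds P) ∧
    (CH → ∃ (X : Type) (_ : TopologicalSpace X), T35Space X ∧
      HereditarilyLindelofSpace {f : X → ℝ // Continuous f} ∧
      PerfectlyNormal {f : X → ℝ // Continuous f} ∧
      ¬ PerfectlyNormal ({f : X → ℝ // Continuous f} × {f : X → ℝ // Continuous f}) ∧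
      ∃ D : Set ({f : X → ℝ // Continuous f} × {f : X → ℝ // Continuous f}),
        ¬ D.Countable ∧ DiscreteTopology D) := by
  refine ⟨Pool.Agent.N482.ch_forced, fun hCH => ?_⟩
  obtain ⟨X, t, h1, h2, h3, h4⟩ := Pool.Agent.H774R4.main (Pool.Agent.N482.ch_iff.1 hCH)
  exact ⟨X, t, h1, h2.1, h2.2, h3, h4⟩

end Pool.Agent.Results.MP_181197_gt.ConsistentCounterexample
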